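import Pool.Agent.H751R2.GN.Stubs
import Pool.Agent.H751R2.GN.Stubs2
import Pool.Agent.H751R2.GN.Stubs3
import Pool.Agent.H751R2.GN.THYP
import Pool.Agent.H952R2.TY.P.A1
import Pool.Agent.H952R2.TY.P.C1
import Pool.Agent.H952R2.TY.P.C2

/-!
# Graph projections of the powers of operators close to nilpotent matrices

Let `N` be a nilpotent matrix and `P` the projection onto the kernel of `N ^ i`.  If `T` is close to
`N` in the 2-norm, then the projection onto the graph of `c T ^ i` (for a suitable large `c`) is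
close to `P ⊕ *`.  Hence in the limit one gets projections invariant under every bounded operator
commuting with `T`.
-/

set_option autoImplicit false

open scoped Kronecker ComplexOrder
open Filter Topology

namespace Pool.Agent.H850.GN

open Pool.Agent.H751R2.GN (HypData Idx RegNil IsKerProj S_BR1 S_BR4 QN Ball)
open Pool.Agent.H952R2.TY (IsF S_C1 S_C2)

variable {H : Type} [NormedAddCommGroup H] [InnerProductSpace ℂ H] [CompleteSpace H]

lemma c1 : S_C1 := Pool.Agent.H952R2.TY.P.C1 Pool.Agent.H952R2.TY.P.A1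

lemma app {a b : H →L[ℂ] H} (h : a = b) (v : H) : a v = b v := by rw [h]

lemma mul_app (a b : H →L[ℂ] H) (v : H) : (a * b) v = a (b v) := rfl

lemma sub_app (a b : H →L[ℂ] H) (v : H) : (a - b) v = a v - b v := rfl

/-- norm facts on `F = (1 + B* B)⁻¹` -/
lemma facts {M : VonNeumannAlgebra H} {B F : H →L[ℂ] H} (hF : IsF M B F) :
    star B * B * F = 1 - F ∧ F * (star B * B) = 1 - F ∧ ‖F‖ ≤ 1 ∧ ‖B * F‖ ≤ 1 ∧
      ‖F * star B‖ ≤ 1 ∧ ‖B * F * star B‖ ≤ 1 := by
  obtain ⟨-, e1, e2, -, nF, nBF, nFB, nBFB, -, -⟩ := Pool.Agent.H952R2.TY.P.C2 H M B F hF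
  exact ⟨e1, e2, nF, nBF, nFB, nBFB⟩

/-- a spectral gap: `a p = 0`, `b a = 1 - p` -/
lemma gap {M : VonNeumannAlgebra H} {a p b F : H →L[ℂ] H} {c : ℝ} (hc : 0 < c)
    (hF : IsF M ((c : ℂ) • a) F) (hps : star p = p) (hap : a * p = 0) (hba : b * a = 1 - p) :
    ‖F - p‖ ≤ ‖b‖ / c ∧ ‖((c : ℂ) • a) * F‖ ≤ ‖b‖ / c := by
  obtain ⟨-, -, nF, nBF, nFB, nBFB⟩ := facts hF
  set B : H →L[ℂ] H := (c : ℂ) • a with hB
  have hBp : B * p = 0 := by rw [hB, smul_mul_assoc, hap, smul_zero]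
  have hFp : F * p = p := by
    have h1 : F * (1 + star B * B) * p = p := by rw [hF.left, one_mul]
    have h2 : F * (1 + star B * B) * p = F * p + F * star B * (B * p) := by noncomm_ring
    rw [h2, hBp, mul_zero, add_zero] at h1
    exact h1
  have hc' : (c : ℂ) ≠ 0 := by exact_mod_cast hc.ne'
  have hsB : star B = (c : ℂ) • star a := by
    rw [hB, star_smul]
    congr 1
    exact Complex.conj_ofReal c
  have hq : 1 - p = star a * star b := by
    have h1 := congrArg star hba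
    rw [star_mul, star_sub, star_one, hps] at h1
    exact h1.symm
  have hq2 : 1 - p = (c : ℂ)⁻¹ • (star B * star b) := by
    rw [hsB, smul_mul_assoc, smul_smul, inv_mul_cancel₀ hc', one_smul, hq]
  have hnc : ‖(c : ℂ)⁻¹‖ = 1 / c := by
    rw [norm_inv, Complex.norm_real, Real.norm_eq_abs, abs_of_pos hc, one_div]
  constructor
  · have h1 : F - p = (c : ℂ)⁻¹ • ((F * star B) * star b) := by
      have h2 : F - p = F * (1 - p) := by rw [mul_sub, mul_one, hFp]
      rw [h2, hq2, mul_smul_comm, mul_assoc]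
    rw [h1, norm_smul, hnc]
    have h3 : ‖(F * star B) * star b‖ ≤ 1 * ‖b‖ := by
      refine (norm_mul_le _ _).trans ?_
      rw [norm_star]
      gcongr
    calc 1 / c * ‖(F * star B) * star b‖ ≤ 1 / c * (1 * ‖b‖) := by gcongr
      _ = ‖b‖ / c := by ring
  · have h1 : B * F = (c : ℂ)⁻¹ • ((B * F * star B) * star b) := by
      have h2 : B * F = B * F * (1 - p) := by
        rw [mul_sub, mul_one, mul_assoc B F p, hFp, hBp, sub_zero]
      calc B * F = B * F * (1 - p) := h2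
        _ = (c : ℂ)⁻¹ • ((B * F * star B) * star b) := by
          rw [hq2, mul_smul_comm, ← mul_assoc]
    rw [h1, norm_smul, hnc]
    have h3 : ‖(B * F * star B) * star b‖ ≤ 1 * ‖b‖ := by
      refine (norm_mul_le _ _).trans ?_
      rw [norm_star]
      gcongr
    calc 1 / c * ‖(B * F * star B) * star b‖ ≤ 1 / c * (1 * ‖b‖) := by gcongr
      _ = ‖b‖ / c := by ring

variable (hb1 : S_BR1 H)

include hb1

lemma two_right (D : HypData H) {x y : H →L[ℂ] H} (hx : x ∈ D.M) (hy : y ∈ D.M) :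
    ‖(x * y) D.Ω‖ ≤ ‖y‖ * ‖x D.Ω‖ := (hb1 D x hx y hy).1

lemma two_star (D : HypData H) {x : H →L[ℂ] H} (hx : x ∈ D.M) :
    ‖(star x) D.Ω‖ = ‖x D.Ω‖ := (hb1 D x hx x hx).2.1

/-- perturbation of graph projections in the 2-norm -/
lemma pert (D : HypData H) {B F B0 F0 : H →L[ℂ] H} (hF : IsF D.M B F) (hF0 : IsF D.M B0 F0) :
    ‖(F - F0) D.Ω‖ ≤ 2 * ‖(B - B0) D.Ω‖ ∧ ‖(B * F - B0 * F0) D.Ω‖ ≤ 3 * ‖(B - B0) D.Ω‖ := by
  obtain ⟨e1, -, nF, nBF, -, -⟩ := facts hF
  obtain ⟨-, f2, mF, mBF, mFB, mBFB⟩ := facts hF0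
  set d : ℝ := ‖(B - B0) D.Ω‖ with hd
  have hdM : B0 - B ∈ D.M := sub_mem hF0.memB hF.memB
  have hd' : ‖(B0 - B) D.Ω‖ = d := by
    rw [hd, ← norm_neg]
    congr 1
    rw [sub_app, sub_app]; abel
  have hBF : B * F ∈ D.M := mul_mem hF.memB hF.memF
  have hd0 : 0 ≤ d := norm_nonneg _
  -- the two basic terms
  have t1 : ‖((B0 - B) * F) D.Ω‖ ≤ d := by
    refine (two_right hb1 D hdM hF.memF).trans ?_
    rw [hd']
    nlinarith
  have t2 : ‖(star (B0 - B) * (B * F)) D.Ω‖ ≤ d := by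
    refine (two_right hb1 D (star_mem hdM) hBF).trans ?_
    rw [two_star hb1 D hdM, hd']
    nlinarith
  have key : F - F0 = (F0 * star B0) * ((B0 - B) * F) + F0 * (star (B0 - B) * (B * F)) := by
    have h1 : F - F0 = F0 * (star B0 * B0) * F - F0 * (star B * B * F) := by
      rw [f2, e1]; noncomm_ring
    rw [h1, star_sub]; noncomm_ring
  have b1 : ‖(F - F0) D.Ω‖ ≤ 2 * d := by
    rw [key, add_apply]
    refine (norm_add_le _ _).trans ?_
    have h1 : ‖((F0 * star B0) * ((B0 - B) * F)) D.Ω‖ ≤ d := by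
      rw [mul_app]
      refine ((F0 * star B0).le_opNorm _).trans ?_
      have := norm_nonneg (((B0 - B) * F) D.Ω)
      nlinarith
    have h2 : ‖(F0 * (star (B0 - B) * (B * F))) D.Ω‖ ≤ d := by
      rw [mul_app]
      refine (F0.le_opNorm _).trans ?_
      have := norm_nonneg ((star (B0 - B) * (B * F)) D.Ω)
      nlinarith
    linarith
  refine ⟨b1, ?_⟩
  have key2 : B * F - B0 * F0 = (B - B0) * F + ((B0 * F0 * star B0) * ((B0 - B) * F) +
      (B0 * F0) * (star (B0 - B) * (B * F))) := by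
    have h1 : B * F - B0 * F0 = (B - B0) * F + B0 * (F - F0) := by noncomm_ring
    rw [h1, key]; noncomm_ring
  rw [key2, add_apply, add_apply]
  have h1 : ‖((B - B0) * F) D.Ω‖ ≤ d := by
    refine (two_right hb1 D (sub_mem hF.memB hF0.memB) hF.memF).trans ?_
    rw [← hd]
    nlinarith
  have h2 : ‖((B0 * F0 * star B0) * ((B0 - B) * F)) D.Ω‖ ≤ d := by
    rw [mul_app]
    refine ((B0 * F0 * star B0).le_opNorm _).trans ?_
    have := norm_nonneg (((B0 - B) * F) D.Ω)
    nlinarith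
  have h3 : ‖((B0 * F0) * (star (B0 - B) * (B * F))) D.Ω‖ ≤ d := by
    rw [mul_app]
    refine ((B0 * F0).le_opNorm _).trans ?_
    have := norm_nonneg ((star (B0 - B) * (B * F)) D.Ω)
    nlinarith
  have h4 := norm_add_le (((B - B0) * F) D.Ω) ((((B0 * F0 * star B0) * ((B0 - B) * F)) D.Ω) +
    (((B0 * F0) * (star (B0 - B) * (B * F))) D.Ω))
  have h5 := norm_add_le (((B0 * F0 * star B0) * ((B0 - B) * F)) D.Ω)
    (((B0 * F0) * (star (B0 - B) * (B * F))) D.Ω)
  linarith

/-- powers in the 2-norm -/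
lemma pow_diff (D : HypData H) {T A : H →L[ℂ] H} (hT : T ∈ D.M) (hA : A ∈ D.M) (hT1 : ‖T‖ ≤ 1)
    (hA1 : ‖A‖ ≤ 1) (i : ℕ) : ‖(T ^ i - A ^ i) D.Ω‖ ≤ i * ‖(T - A) D.Ω‖ := by
  have hTi : ∀ i : ℕ, ‖T ^ i‖ ≤ 1 := by
    intro i
    induction i with
    | zero =>
      rw [pow_zero]
      exact (ContinuousLinearMap.norm_id_le : ‖(ContinuousLinearMap.id ℂ H)‖ ≤ 1)
    | succ n ih =>
      rw [pow_succ]
      refine (norm_mul_le _ _).trans ?_
      have := norm_nonneg (T ^ n)
      nlinarith [norm_nonneg T]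
  induction i with
  | zero => simp
  | succ n ih =>
    have e : T ^ (n + 1) - A ^ (n + 1) = T ^ n * (T - A) + (T ^ n - A ^ n) * A := by
      rw [pow_succ, pow_succ]; noncomm_ring
    rw [e, add_apply]
    refine (norm_add_le _ _).trans ?_
    have h1 : ‖(T ^ n * (T - A)) D.Ω‖ ≤ ‖(T - A) D.Ω‖ := by
      rw [mul_app]
      refine ((T ^ n).le_opNorm _).trans ?_
      have := norm_nonneg ((T - A) D.Ω)
      have := hTi n
      nlinarith
    have h2 : ‖((T ^ n - A ^ n) * A) D.Ω‖ ≤ n * ‖(T - A) D.Ω‖ := by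
      refine (two_right hb1 D (sub_mem (pow_mem hT n) (pow_mem hA n)) hA).trans ?_
      have := norm_nonneg ((T ^ n - A ^ n) D.Ω)
      nlinarith
    rw [Nat.cast_add, Nat.cast_one]
    linarith

/-- **Graph projections near a nilpotent matrix.** -/
theorem hypg (hb4 : S_BR4 H) (D : HypData H) (l : ℕ) (N : Matrix (Idx l) (Idx l) ℂ)
    (P : ℕ → Matrix (Idx l) (Idx l) ℂ) (hN : RegNil N) (hP : ∀ i, IsKerProj N i (P i))
    (ε : ℝ) (hε : 0 < ε) : ∃ δ : ℝ, 0 < δ ∧
      ∀ T ∈ D.M, ‖T‖ ≤ 1 → ‖T D.Ω - D.π l N D.Ω‖ < δ → ∀ i : ℕ, ∃ (c : ℝ) (F : H →L[ℂ] H),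
        IsF D.M ((c : ℂ) • T ^ i) F ∧ ‖F D.Ω - D.π l (P i) D.Ω‖ ≤ ε ∧
        ‖(((c : ℂ) • T ^ i) * F) D.Ω‖ ≤ ε := by
  classical
  set d : ℕ := Fintype.card (Idx l) with hd
  have hfac : ∀ i, ∃ B : Matrix (Idx l) (Idx l) ℂ, B * N ^ i = 1 - P i := by
    intro i
    apply Pool.Agent.H751R2.GN.THYP.exists_factor
    intro v hv
    have h1 := ((hP i).2.2 v).mpr hv
    rw [Matrix.sub_mulVec, Matrix.one_mulVec, h1, sub_self]
  choose B hB using hfac
  set β : ℝ := ∑ i ∈ Finset.range d, ‖D.π l (B i)‖ with hβ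
  have hβ0 : 0 ≤ β := Finset.sum_nonneg fun i _ => norm_nonneg _
  have hβi : ∀ i < d, ‖D.π l (B i)‖ ≤ β := fun i hi =>
    Finset.single_le_sum (f := fun i => ‖D.π l (B i)‖) (fun i _ => norm_nonneg _)
      (Finset.mem_range.mpr hi)
  set c : ℝ := 2 * β / ε + 1 with hc
  have hc0 : 0 < c := by positivity
  refine ⟨ε / (6 * c * (d + 1)), by positivity, ?_⟩
  intro T hT hT1 hTN i
  set A : H →L[ℂ] H := D.π l N with hA
  have hAM : A ∈ D.M := D.π_mem l N
  have hA1 : ‖A‖ ≤ 1 := hb4 D l N hN.1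
  by_cases hi : i < d
  · have hAi : D.π l (N ^ i) = A ^ i := by rw [map_pow]
    obtain ⟨F, -, -, hF, -⟩ := c1 H D.M ((c : ℂ) • T ^ i) (by
      rw [← smul_one_mul]
      exact mul_mem (D.M.toStarSubalgebra.smul_mem (one_mem _) _) (pow_mem hT i))
    obtain ⟨F0, -, -, hF0, -⟩ := c1 H D.M ((c : ℂ) • A ^ i) (by
      rw [← smul_one_mul]
      exact mul_mem (D.M.toStarSubalgebra.smul_mem (one_mem _) _) (pow_mem hAM i))
    have hgap := gap (a := A ^ i) (p := D.π l (P i)) (b := D.π l (B i)) hc0 hF0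
      (by rw [← map_star]; congr 1; exact (hP i).1)
      (by
        rw [← hAi, ← map_mul]
        have h1 : N ^ i * P i = 0 := by
          have h2 : ∀ v, (N ^ i * P i).mulVec v = 0 := by
            intro v
            rw [← Matrix.mulVec_mulVec]
            apply ((hP i).2.2 _).mp
            rw [Matrix.mulVec_mulVec, (hP i).2.1]
          ext a b
          have h3 := congrFun (h2 (Pi.single b 1)) a
          simpa using h3
        rw [h1, map_zero])
      (by rw [← hAi, ← map_mul, hB i, map_sub, map_one])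
    have hβc : ‖D.π l (B i)‖ / c ≤ ε / 2 := by
      rw [div_le_iff₀ hc0, hc]
      have h1 := hβi i hi
      have h2 : ε / 2 * (2 * β / ε + 1) = β + ε / 2 := by field_simp
      rw [h2]; linarith
    obtain ⟨p1, p2⟩ := pert hb1 D hF hF0
    have hdiff : ‖(((c : ℂ) • T ^ i) - ((c : ℂ) • A ^ i)) D.Ω‖ ≤ ε / 6 := by
      have e : ((c : ℂ) • T ^ i) - ((c : ℂ) • A ^ i) = (c : ℂ) • (T ^ i - A ^ i) := by
        rw [smul_sub]
      rw [e]
      have h1 : ((c : ℂ) • (T ^ i - A ^ i)) D.Ω = (c : ℂ) • ((T ^ i - A ^ i) D.Ω) := rfl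
      rw [h1, norm_smul, Complex.norm_real, Real.norm_eq_abs, abs_of_pos hc0]
      have h2 := pow_diff hb1 D hT hAM hT1 hA1 i
      have h3 : ‖(T - A) D.Ω‖ < ε / (6 * c * (d + 1)) := hTN
      have h4 : (i : ℝ) ≤ d + 1 := by
        have : (i : ℝ) < d := by exact_mod_cast hi
        linarith
      have h5 : (i : ℝ) * ‖(T - A) D.Ω‖ ≤ (d + 1) * (ε / (6 * c * (d + 1))) := by
        apply mul_le_mul h4 h3.le (norm_nonneg _) (by positivity)
      have h6 : ((d : ℝ) + 1) * (ε / (6 * c * (d + 1))) = ε / (6 * c) := by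
        field_simp
      rw [h6] at h5
      calc c * ‖(T ^ i - A ^ i) D.Ω‖ ≤ c * (ε / (6 * c)) := by
            gcongr; exact h2.trans h5
        _ = ε / 6 := by field_simp
    refine ⟨c, F, hF, ?_, ?_⟩
    · have h1 : F D.Ω - D.π l (P i) D.Ω = (F - F0) D.Ω + (F0 - D.π l (P i)) D.Ω := by
        rw [sub_app, sub_app]; abel
      rw [h1]
      refine (norm_add_le _ _).trans ?_
      have h2 : ‖(F0 - D.π l (P i)) D.Ω‖ ≤ ε / 2 := by
        refine ((F0 - D.π l (P i)).le_opNorm _).trans ?_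
        rw [D.norm_Ω, mul_one]
        exact hgap.1.trans hβc
      linarith
    · have h1 : (((c : ℂ) • T ^ i) * F) D.Ω =
          (((c : ℂ) • T ^ i) * F - ((c : ℂ) • A ^ i) * F0) D.Ω + (((c : ℂ) • A ^ i) * F0) D.Ω := by
        rw [sub_app]; abel
      rw [h1]
      refine (norm_add_le _ _).trans ?_
      have h2 : ‖(((c : ℂ) • A ^ i) * F0) D.Ω‖ ≤ ε / 2 := by
        refine ((((c : ℂ) • A ^ i) * F0).le_opNorm _).trans ?_
        rw [D.norm_Ω, mul_one]
        exact hgap.2.trans hβc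
      linarith
  · -- the power vanishes
    have hNi : N ^ i = 0 := by
      have h1 : N ^ d = 0 := hN.2.1
      obtain ⟨k, rfl⟩ := Nat.exists_eq_add_of_le (not_lt.mp hi)
      rw [pow_add, h1, zero_mul]
    have hPi : P i = 1 := by
      have h2 : ∀ v, (P i).mulVec v = v := by
        intro v
        rw [(hP i).2.2 v, hNi, Matrix.zero_mulVec]
      ext a b
      have h3 := congrFun (h2 (Pi.single b 1)) a
      simpa [Matrix.one_apply, Pi.single_apply] using h3
    refine ⟨0, 1, ⟨?_, one_mem _, ?_, ?_⟩, ?_, ?_⟩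
    · simp
    · simp
    · simp
    · rw [hPi, map_one, sub_self, norm_zero]; exact hε.le
    · simp [hε.le]

/-- In the standard representation a bounded sequence of `M` which tends to zero on `Ω` tends to
zero strongly. -/
lemma strongD (D : HypData H) {x : ℕ → (H →L[ℂ] H)} (hx : ∀ n, x n ∈ D.M) {C : ℝ}
    (hC : ∀ n, ‖x n‖ ≤ C) (h : Tendsto (fun n => x n D.Ω) atTop (𝓝 0)) (ξ : H) :
    Tendsto (fun n => x n ξ) atTop (𝓝 0) := by
  have hC0 : 0 ≤ C := (norm_nonneg _).trans (hC 0)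
  rw [Metric.tendsto_atTop]
  intro ε hε
  obtain ⟨η, ⟨y, hy, rfl⟩, hη⟩ := Metric.mem_closure_iff.mp (D.cyclic ξ) (ε / (2 * (C + 1)))
    (by positivity)
  have h1 : Tendsto (fun n => x n (y D.Ω)) atTop (𝓝 0) := by
    have h2 : Tendsto (fun n => ‖y‖ * ‖x n D.Ω‖) atTop (𝓝 0) := by
      have := h.norm.const_mul ‖y‖
      rwa [norm_zero, mul_zero] at this
    apply squeeze_zero_norm _ h2
    intro n
    exact (hb1 D (x n) (hx n) y hy).1
  obtain ⟨K, hK⟩ := (Metric.tendsto_atTop.mp h1) (ε / 2) (by linarith)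
  refine ⟨K, fun n hn => ?_⟩
  have h3 := hK n hn
  rw [dist_zero_right] at h3 ⊢
  have h4 : ‖x n (ξ - y D.Ω)‖ ≤ C * ‖ξ - y D.Ω‖ := by
    refine ((x n).le_opNorm _).trans ?_
    gcongr
    exact hC n
  have h5 : ‖ξ - y D.Ω‖ < ε / (2 * (C + 1)) := by rwa [← dist_eq_norm]
  have h6 : C * ‖ξ - y D.Ω‖ ≤ (C + 1) * (ε / (2 * (C + 1))) := by
    apply mul_le_mul (by linarith) h5.le (norm_nonneg _) (by linarith)
  have h7 : (C + 1) * (ε / (2 * (C + 1))) = ε / 2 := by field_simp
  have h8 : x n ξ = x n (ξ - y D.Ω) + x n (y D.Ω) := by rw [map_sub]; abel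
  rw [h8]
  calc ‖x n (ξ - y D.Ω) + x n (y D.Ω)‖ ≤ ‖x n (ξ - y D.Ω)‖ + ‖x n (y D.Ω)‖ := norm_add_le _ _
    _ < ε := by linarith

/-- **Hyperinvariance of limits of graph projections.** -/
theorem hyperD (D : HypData H) (T p : H →L[ℂ] H) (hp : p ∈ D.M) (hp1 : ‖p‖ ≤ 1) (c : ℕ → ℝ)
    (i : ℕ → ℕ) (F : ℕ → (H →L[ℂ] H)) (hF : ∀ n, IsF D.M ((c n : ℂ) • T ^ (i n)) (F n))
    (h1 : Tendsto (fun n => F n D.Ω) atTop (𝓝 (p D.Ω)))
    (h2 : Tendsto (fun n => (((c n : ℂ) • T ^ (i n)) * F n) D.Ω) atTop (𝓝 0))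
    (S : H →L[ℂ] H) (hST : S * T = T * S) : S * p = p * S * p := by
  set B : ℕ → (H →L[ℂ] H) := fun n => (c n : ℂ) • T ^ (i n) with hB
  have hfacts := fun n => facts (hF n)
  have hFM : ∀ n, F n ∈ D.M := fun n => (hF n).memF
  have hBM : ∀ n, B n ∈ D.M := fun n => (hF n).memB
  have s1 : ∀ v, Tendsto (fun n => F n v) atTop (𝓝 (p v)) := by
    intro v
    have h3 : Tendsto (fun n => (F n - p) v) atTop (𝓝 0) := by
      apply strongD hb1 D (x := fun n => F n - p) (fun n => sub_mem (hFM n) hp) (C := 2)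
      · intro n
        refine (norm_sub_le _ _).trans ?_
        have := (hfacts n).2.2.1
        linarith
      · have := h1.sub_const (p D.Ω)
        rw [sub_self] at this
        exact this
    have h4 := h3.add_const (p v)
    rw [zero_add] at h4
    refine h4.congr ?_
    intro n
    rw [sub_app]; abel
  have s2 : ∀ v, Tendsto (fun n => (B n * F n) v) atTop (𝓝 0) := by
    intro v
    apply strongD hb1 D (x := fun n => B n * F n) (fun n => mul_mem (hBM n) (hFM n)) (C := 1)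
    · intro n; exact (hfacts n).2.2.2.1
    · exact h2
  have hSB : ∀ n, S * B n = B n * S := by
    intro n
    have h : S * T ^ (i n) = T ^ (i n) * S := (show Commute S T from hST).pow_right (i n)
    show S * ((c n : ℂ) • T ^ (i n)) = ((c n : ℂ) • T ^ (i n)) * S
    rw [mul_smul_comm, smul_mul_assoc, h]
  have hid : ∀ n, S * F n - F n * (S * F n) = (F n * star (B n)) * (S * (B n * F n)) := by
    intro n
    have e2 : F n * (star (B n) * B n) = 1 - F n := (hfacts n).2.1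
    calc S * F n - F n * (S * F n) = (1 - F n) * S * F n := by noncomm_ring
      _ = F n * (star (B n) * B n) * S * F n := by rw [e2]
      _ = F n * star (B n) * (B n * S) * F n := by noncomm_ring
      _ = F n * star (B n) * (S * B n) * F n := by rw [hSB n]
      _ = (F n * star (B n)) * (S * (B n * F n)) := by noncomm_ring
  ext v
  rw [mul_app, mul_app, mul_app]
  have l1 : Tendsto (fun n => S (F n v)) atTop (𝓝 (S (p v))) :=
    (S.continuous.tendsto _).comp (s1 v)
  have l2 : Tendsto (fun n => F n (S (F n v))) atTop (𝓝 (p (S (p v)))) := by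
    have h3 : Tendsto (fun n => F n (S (F n v) - S (p v))) atTop (𝓝 0) := by
      have h4 : Tendsto (fun n => ‖S (F n v) - S (p v)‖) atTop (𝓝 0) := by
        have := (l1.sub_const (S (p v))).norm
        rwa [sub_self, norm_zero] at this
      apply squeeze_zero_norm _ h4
      intro n
      refine ((F n).le_opNorm _).trans ?_
      have h5 := (hfacts n).2.2.1
      have h6 := norm_nonneg (S (F n v) - S (p v))
      nlinarith
    have h4 := h3.add (s1 (S (p v)))
    rw [zero_add] at h4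
    refine h4.congr ?_
    intro n
    rw [map_sub]; abel
  have l3 : Tendsto (fun n => (F n * star (B n)) (S ((B n * F n) v))) atTop (𝓝 0) := by
    have h3 : Tendsto (fun n => ‖S ((B n * F n) v)‖) atTop (𝓝 0) := by
      have h4 : Tendsto (fun n => S ((B n * F n) v)) atTop (𝓝 (S 0)) :=
        (S.continuous.tendsto 0).comp (s2 v)
      rw [map_zero] at h4
      have h5 := h4.norm
      rwa [norm_zero] at h5
    apply squeeze_zero_norm _ h3
    intro n
    refine ((F n * star (B n)).le_opNorm _).trans ?_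
    have h4 : ‖F n * star (B n)‖ ≤ 1 := (hfacts n).2.2.2.2.1
    have h5 := norm_nonneg (S ((B n * F n) v))
    nlinarith
  have l4 : Tendsto (fun n => S (F n v) - F n (S (F n v))) atTop (𝓝 (S (p v) - p (S (p v)))) :=
    l1.sub l2
  have e4 : (fun n => S (F n v) - F n (S (F n v))) =
      fun n => (F n * star (B n)) (S ((B n * F n) v)) := by
    funext n
    exact app (hid n) v
  rw [e4] at l4
  exact sub_eq_zero.mp (tendsto_nhds_unique l4 l3)

end Pool.Agent.H850.GN
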