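import Pool.Agent.H850.GN.Graph
import Pool.Agent.H751R2.GN.Final3

/-!
# The category argument in the hyperfinite factor, with hyperinvariance in `B(H)`

The tree argument is that of `Pool.Agent.H751R2.GN.TMAINM`; the neighbourhoods are in addition so
small that the graph projections of the powers are controlled.
-/

set_option autoImplicit false

open scoped Kronecker ComplexOrder
open Filter Topology

namespace Pool.Agent.H850.GN

open Pool.Agent.H751R2.GN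
open Pool.Agent.H751R2.GN.TMAINM
open Pool.Agent.H952R2.TY (IsF)

variable {H : Type} [NormedAddCommGroup H] [InnerProductSpace ℂ H] [CompleteSpace H]

/-- `T` has a full nest of projections in `M`: `P t`, `0 ≤ t ≤ 1`, increasing, of trace `t`,
invariant under every bounded operator on `H` commuting with `T`; every `x` in `M` which commutes
with all `P t` is a 2-norm limit of linear combinations of the `P ((j + 1) / K) - P (j / K)`. -/
def BNest (D : HypData H) (T : H →L[ℂ] H) : Prop :=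
  ∃ P : ℝ → (H →L[ℂ] H),
    (∀ t : ℝ, 0 ≤ t → t ≤ 1 → P t ∈ D.M ∧ star (P t) = P t ∧ P t * P t = P t ∧
      inner ℂ D.Ω (P t D.Ω) = (t : ℂ) ∧
      ∀ S : H →L[ℂ] H, S * T = T * S → S * P t = P t * S * P t) ∧
    (∀ s t : ℝ, 0 ≤ s → s ≤ t → t ≤ 1 → P t * P s = P s) ∧
    ∀ x ∈ D.M, (∀ t : ℝ, 0 ≤ t → t ≤ 1 → x * P t = P t * x) → ∀ ε : ℝ, 0 < ε →
      ∃ (K : ℕ) (c : ℕ → ℂ), 0 < K ∧
        ‖x D.Ω - (∑ j ∈ Finset.range K,
          c j • (P (((j : ℝ) + 1) / K) - P ((j : ℝ) / K))) D.Ω‖ < ε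

/-- the distance between projections of a nest -/
lemma nest_dist (D : HypData H) {p q : H →L[ℂ] H} {s t : ℝ} (hps : star p = p) (hpp : p * p = p)
    (hqs : star q = q) (hqq : q * q = q) (hp : inner ℂ D.Ω (p D.Ω) = (s : ℂ))
    (hq : inner ℂ D.Ω (q D.Ω) = (t : ℂ)) (h : q * p = p) :
    ‖q D.Ω - p D.Ω‖ ^ 2 = t - s := by
  have hpq : p * q = p := by
    have := congrArg star h
    rwa [star_mul, hps, hqs] at this
  have hr : star (q - p) * (q - p) = q - p := by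
    rw [star_sub, hps, hqs, sub_mul, mul_sub, mul_sub, hqq, h, hpq, hpp]; abel
  have h1 : inner ℂ ((q - p) D.Ω) ((q - p) D.Ω) = ((t - s : ℝ) : ℂ) := by
    have h2 : inner ℂ ((q - p) D.Ω) ((q - p) D.Ω) =
        inner ℂ D.Ω ((star (q - p) * (q - p)) D.Ω) := by
      rw [mul_app, ContinuousLinearMap.star_eq_adjoint, ContinuousLinearMap.adjoint_inner_right]
    rw [h2, hr, sub_app, inner_sub_right, hp, hq]
    push_cast
    ring
  have h3 : ((‖q D.Ω - p D.Ω‖ ^ 2 : ℝ) : ℂ) = ((t - s : ℝ) : ℂ) := by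
    rw [← h1, ← sub_app, inner_self_eq_norm_sq_to_K]
    norm_cast
  exact_mod_cast h3

theorem limit_hyper (hb1 : S_BR1 H) (D : HypData H) (T : H →L[ℂ] H) (Q : ℝ → (H →L[ℂ] H))
    (l : ℕ → ℕ) (P : ∀ n, ℕ → Matrix (Idx (l n)) (Idx (l n)) ℂ)
    (hQ : ∀ t : ℝ, 0 ≤ t → t ≤ 1 → Q t ∈ D.M ∧ star (Q t) = Q t ∧ Q t * Q t = Q t ∧
      inner ℂ D.Ω (Q t D.Ω) = (t : ℂ))
    (hQm : ∀ s t : ℝ, 0 ≤ s → s ≤ t → t ≤ 1 → Q t * Q s = Q s)
    (hcard : ∀ n, 4 ^ (n + 1) ≤ Fintype.card (Idx (l n)))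
    (hQ3 : ∀ n, ∀ j ≤ Fintype.card (Idx (l n)),
      ‖Q ((j : ℝ) / Fintype.card (Idx (l n))) D.Ω - D.π (l n) (P n j) D.Ω‖ ≤
        2 * (1 / 2) ^ n / (Fintype.card (Idx (l n))) ^ 2)
    (hG : ∀ n, ∀ i : ℕ, ∃ (c : ℝ) (F : H →L[ℂ] H),
        IsF D.M ((c : ℂ) • T ^ i) F ∧ ‖F D.Ω - D.π (l n) (P n i) D.Ω‖ ≤ (1 / 2) ^ n ∧
        ‖(((c : ℂ) • T ^ i) * F) D.Ω‖ ≤ (1 / 2) ^ n)
    (t : ℝ) (h0 : 0 ≤ t) (h1 : t ≤ 1) (S : H →L[ℂ] H) (hS : S * T = T * S) :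
    S * Q t = Q t * S * Q t := by
  set d : ℕ → ℕ := fun n => Fintype.card (Idx (l n)) with hd
  set j : ℕ → ℕ := fun n => ⌊t * d n⌋₊ with hj
  have hd1 : ∀ n, (1 : ℝ) ≤ d n := by
    intro n
    have h2 : 1 ≤ d n := le_trans Nat.one_le_two_pow (le_trans (by
      have : (2 : ℕ) ^ (n + 1) ≤ 4 ^ (n + 1) := Nat.pow_le_pow_left (by norm_num) _
      exact this) (hcard n))
    exact_mod_cast h2
  have hjt : ∀ n, (j n : ℝ) ≤ t * d n := fun n =>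
    Nat.floor_le (mul_nonneg h0 (by linarith [hd1 n]))
  have hjd : ∀ n, j n ≤ d n := by
    intro n
    have h2 : (j n : ℝ) ≤ d n := (hjt n).trans (by nlinarith [hd1 n])
    exact_mod_cast h2
  have hjt' : ∀ n, t * d n < j n + 1 := fun n => Nat.lt_floor_add_one _
  choose c F hF hFP hBF using fun n => hG n (j n)
  have hhalf : Tendsto (fun n : ℕ => (1 / 2 : ℝ) ^ n) atTop (𝓝 0) :=
    tendsto_pow_atTop_nhds_zero_of_lt_one (by norm_num) (by norm_num)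
  -- the distance from `F n Ω` to `Q t Ω`
  have hs0 : ∀ n, 0 ≤ (j n : ℝ) / d n := fun n => div_nonneg (Nat.cast_nonneg _) (by linarith [hd1 n])
  have hst : ∀ n, (j n : ℝ) / d n ≤ t := by
    intro n
    rw [div_le_iff₀ (by linarith [hd1 n])]
    exact hjt n
  have hts : ∀ n, t - (j n : ℝ) / d n ≤ (1 / 4) ^ n := by
    intro n
    have hdn := hd1 n
    have h2 : t - (j n : ℝ) / d n ≤ 1 / d n := by
      rw [sub_le_iff_le_add, ← add_div, le_div_iff₀ (by linarith)]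
      linarith [hjt' n]
    have h3 : (4 : ℝ) ^ n ≤ d n := by
      have h4 : (4 : ℝ) ^ (n + 1) ≤ d n := by exact_mod_cast hcard n
      have h5 : (4 : ℝ) ^ n ≤ 4 ^ (n + 1) := pow_le_pow_right₀ (by norm_num) (Nat.le_succ n)
      exact h5.trans h4
    refine h2.trans ?_
    rw [one_div_pow]
    exact one_div_le_one_div_of_le (by positivity) h3
  have hQd : ∀ n, ‖Q t D.Ω - Q ((j n : ℝ) / d n) D.Ω‖ ≤ (1 / 2) ^ n := by
    intro n
    have hq1 := hQ t h0 h1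
    have hq2 := hQ ((j n : ℝ) / d n) (hs0 n) ((hst n).trans h1)
    have h2 := nest_dist D hq2.2.1 hq2.2.2.1 hq1.2.1 hq1.2.2.1 hq2.2.2.2 hq1.2.2.2
      (hQm _ _ (hs0 n) (hst n) h1)
    have h3 : ((1 / 2 : ℝ) ^ n) ^ 2 = (1 / 4) ^ n := by
      rw [← pow_mul, mul_comm, pow_mul]; norm_num
    refine (sq_le_sq₀ (norm_nonneg _) (by positivity)).1 ?_
    rw [h2, h3]
    exact hts n
  have hdist : ∀ n, ‖F n D.Ω - Q t D.Ω‖ ≤ 4 * (1 / 2) ^ n := by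
    intro n
    have h2 := hFP n
    have h3 := hQ3 n (j n) (hjd n)
    have h4 := hQd n
    have h5 : 2 * (1 / 2 : ℝ) ^ n / (d n : ℝ) ^ 2 ≤ 2 * (1 / 2) ^ n := by
      apply div_le_self (by positivity)
      have := hd1 n
      nlinarith
    have e : F n D.Ω - Q t D.Ω = (F n D.Ω - D.π (l n) (P n (j n)) D.Ω) -
        (Q ((j n : ℝ) / d n) D.Ω - D.π (l n) (P n (j n)) D.Ω) -
        (Q t D.Ω - Q ((j n : ℝ) / d n) D.Ω) := by abel
    rw [e]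
    have h6 := norm_sub_le ((F n D.Ω - D.π (l n) (P n (j n)) D.Ω) -
        (Q ((j n : ℝ) / d n) D.Ω - D.π (l n) (P n (j n)) D.Ω))
        (Q t D.Ω - Q ((j n : ℝ) / d n) D.Ω)
    have h7 := norm_sub_le (F n D.Ω - D.π (l n) (P n (j n)) D.Ω)
        (Q ((j n : ℝ) / d n) D.Ω - D.π (l n) (P n (j n)) D.Ω)
    have h8 : ‖Q ((j n : ℝ) / d n) D.Ω - D.π (l n) (P n (j n)) D.Ω‖ ≤ 2 * (1 / 2) ^ n :=
      h3.trans h5
    linarith
  have hq := hQ t h0 h1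
  have hQ1 : ‖Q t‖ ≤ 1 := TLIMH.norm_proj_le hq.2.1 hq.2.2.1
  apply hyperD hb1 D T (Q t) hq.1 hQ1 c j F hF ?_ ?_ S hS
  · rw [tendsto_iff_norm_sub_tendsto_zero]
    have h2 : Tendsto (fun n : ℕ => 4 * (1 / 2 : ℝ) ^ n) atTop (𝓝 0) := by
      have := hhalf.const_mul 4
      rwa [mul_zero] at this
    exact squeeze_zero (fun n => norm_nonneg _) hdist h2
  · exact squeeze_zero_norm hBF hhalf

theorem zero_mem_QN (hBR4 : S_BR4 H) (hBN7 : S_BN7 H) (D : HypData H) :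
    (⟨0, zero_mem _, by simp⟩ : Ball D) ∈ QN D := by
  have h := fun μ hμ => hBN7 D 0 0 ⟨1, by simp⟩ μ hμ
  intro μ hμ
  have h2 := h μ hμ
  rw [map_zero] at h2
  exact h2

/-- the final theorem -/
def MAINB (H : Type) [NormedAddCommGroup H] [InnerProductSpace ℂ H] [CompleteSpace H] : Prop :=
  ∀ (D : HypData H), CompleteSpace (Ball D) ∧ (∀ S T : Ball D, dist S T = 0 → S = T) ∧
    Nonempty (QN D) ∧ IsGδ (QN D) ∧ BaireSpace (QN D) ∧
    {T : QN D | BNest D T.1.1 ∧ ∀ S : H →L[ℂ] H, S * T.1.1 = T.1.1 * S →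
      S * star T.1.1 = star T.1.1 * S → ∀ x ∈ D.M, S * x = x * S} ∈ residual (QN D)

theorem t_MAINB (H : Type) [NormedAddCommGroup H] [InnerProductSpace ℂ H] [CompleteSpace H]
    (hTREE : S_TREE2) (hBAIRE : S_BAIRE) (hBALL : S_BALL H) (hBN6 : S_BN6 H) (hBR3 : S_BR3 H)
    (hBR4 : S_BR4 H) (hBR7 : S_BR7 H) (hBN7 : S_BN7 H) (hBN10 : S_BN10 H) (hREGD : S_REGD)
    (hH1 : S_H12 H) (hLIM : S_LIMH2 H) (hMASA : S_MASA H) (hHYP : S_HYP H)
    (hGEN1 : S_GEN1 H) (hGENL : S_GENL H) (hAMPM : S_AMPM) (hBR1 : S_BR1 H) : MAINB H := by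
  intro D
  obtain ⟨hc, hs0⟩ := hBALL D
  refine ⟨hc, hs0, ⟨⟨⟨0, zero_mem _, by simp⟩, zero_mem_QN hBR4 hBN7 D⟩⟩, hBN6 D,
    hBAIRE _ _ (hBN6 D), ?_⟩
  -- the tree
  choose δ₀ hδ₀ hδ₀' using fun (n : ℕ) (z : Node) =>
    hHYP D z.l z.N z.P z.reg z.ker ((1 / 2) ^ n) (by positivity)
  choose δ₁ hδ₁ hδ₁' using fun (n : ℕ) (z : Node) =>
    hGEN1 D z.l z.N z.reg ((1 / 2) ^ n) (by positivity)
  choose δ₂ hδ₂ hδ₂' using fun (n : ℕ) (z : Node) =>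
    hypg hBR1 hBR4 D z.l z.N z.P z.reg z.ker ((1 / 2) ^ n) (by positivity)
  have key := hTREE (QN D) Node (nf D hBR4 hBN7)
    (fun n => {z | n ≤ z.l ∧ 4 ^ (n + 1) ≤ Fintype.card (Idx z.l)})
    (fun n z z' => (∀ t : ℝ, 0 ≤ t → t ≤ 1 →
      ‖D.π z'.l (z'.P ⌊t * Fintype.card (Idx z'.l)⌋₊) D.Ω -
        D.π z.l (z.P ⌊t * Fintype.card (Idx z.l)⌋₊) D.Ω‖ ≤ (1 / 2) ^ n) ∧
      ∃ q : ℕ, Fintype.card (Idx z'.l) = Fintype.card (Idx z.l) * q ∧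
        ∀ j ≤ Fintype.card (Idx z.l),
          ‖D.π z'.l (z'.P (j * q)) D.Ω - D.π z.l (z.P j) D.Ω‖ ≤
            (1 / 2) ^ n / (Fintype.card (Idx z.l)) ^ 2)
    (fun n z => min (min (δ₀ n z) (δ₁ n z)) (δ₂ n z) / 2)
    (fun n z _ => half_pos (lt_min (lt_min (hδ₀ n z) (hδ₁ n z)) (hδ₂ n z))) ?_ ?_
  · obtain ⟨U, hU, hlim⟩ := key
    have hres : (⋂ n, U n) ∈ residual (QN D) :=
      countable_iInter_mem.2 fun n => residual_of_dense_open (hU n).1 (hU n).2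
    refine mem_of_superset hres ?_
    intro T hT
    obtain ⟨zs, hz, hS, hdist, ht⟩ := hlim T (fun n => Set.mem_iInter.1 hT n)
    have hd0 : ∀ n, ‖T.1.1 D.Ω - D.π (zs n).l (zs n).N D.Ω‖ <
        min (min (δ₀ n (zs n)) (δ₁ n (zs n))) (δ₂ n (zs n)) := by
      intro n
      have h1 := hdist n
      rw [dist_eq] at h1
      exact lt_of_le_of_lt h1 (half_lt_self (lt_min (lt_min (hδ₀ n (zs n)) (hδ₁ n (zs n))) (hδ₂ n (zs n))))
    refine ⟨?_, hGENL D T.1.1 (fun n => (zs n).l) T.1.2.1 (fun n => (hz n).1)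
      (fun n a ha => hδ₁' n (zs n) T.1.1 T.1.2.1 T.1.2.2
        (lt_of_lt_of_le (hd0 n) ((min_le_left _ _).trans (min_le_right _ _))) a ha)⟩
    obtain ⟨Q, hQ1, hQ2, hQ3⟩ := hLIM D T.1.1 (fun n => (zs n).l) (fun n => (zs n).N)
      (fun n => (zs n).P)
      T.1.2.1 T.1.2.2 (fun n => (hz n).1) (fun n => (zs n).reg) (fun n i => (zs n).ker i)
      (by
        rw [tendsto_iff_dist_tendsto_zero] at ht ⊢
        refine ht.congr fun n => ?_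
        rw [dist_eq, dist_eq_norm]; rfl) (fun n t h0 h1 => (hS n).1 t h0 h1)
      (by
        intro n S hS hS1 hST i
        exact hδ₀' n (zs n) T.1.1 T.1.2.1 T.1.2.2
          (lt_of_lt_of_le (hd0 n) ((min_le_left _ _).trans (min_le_left _ _))) S hS hS1 hST i)
      (fun n => (hS n).2)
    refine ⟨Q, fun t h0 h1 => ⟨(hQ1 t h0 h1).1, (hQ1 t h0 h1).2.1, (hQ1 t h0 h1).2.2.1,
      (hQ1 t h0 h1).2.2.2.1, ?_⟩, hQ2, ?_⟩
    · exact limit_hyper hBR1 D T.1.1 Q (fun n => (zs n).l) (fun n => (zs n).P)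
        (fun t h0 h1 => ⟨(hQ1 t h0 h1).1, (hQ1 t h0 h1).2.1, (hQ1 t h0 h1).2.2.1,
          (hQ1 t h0 h1).2.2.2.1⟩) hQ2 (fun n => (hz n).2) hQ3
        (fun n => hδ₂' n (zs n) T.1.1 T.1.2.1 T.1.2.2 (lt_of_lt_of_le (hd0 n) (min_le_right _ _)))
        t h0 h1
    exact hMASA D Q (fun n => (zs n).l) (fun n => (zs n).N) (fun n => (zs n).P)
      (fun t h0 h1 => ⟨(hQ1 t h0 h1).1, (hQ1 t h0 h1).2.1, (hQ1 t h0 h1).2.2.1,
        (hQ1 t h0 h1).2.2.2.1⟩) hQ2 (fun n => (hz n).1) (fun n => (zs n).reg)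
      (fun n i => (zs n).ker i) hQ3
  · -- density of the first level
    intro T
    rw [Metric.mem_closure_iff]
    intro ε hε
    obtain ⟨n, b, hb, hbn, hd⟩ := hBN10 D T.1 T.2 (ε / 2) (by positivity)
    -- lift `b` to a high level
    obtain ⟨L, s, hL, hs, e, -, -, -, -, hN⟩ := hBR7 D n n 1 (4 ^ (0 + 1)) b one_pos
    set B : Matrix (Idx L) (Idx L) ℂ := Matrix.reindex e.symm e.symm
      (b ⊗ₖ (1 : Matrix (Fin 1 × Fin s) (Fin 1 × Fin s) ℂ)) with hBdef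
    have hBc : Ctr B := ctr_reindex _ ((hAMPM (Idx n) (Fin 1 × Fin s) 1 0 0 b).2.2.2.2.2 hb)
    have hBn : IsNilpotent B := nil_reindex _ (nil_kron hbn)
    have hBπ : D.π L B = D.π n b := hN b
    have hcardL : (0 : ℝ) < Fintype.card (Idx L) := by exact_mod_cast card_pos L
    obtain ⟨N, P, hreg, hker, hhs⟩ := hREGD (Idx L) B hBc hBn
      ((ε / 4) ^ 2 * Fintype.card (Idx L)) (by positivity)
    have hnorm : ‖D.π L N D.Ω - D.π L B D.Ω‖ ≤ ε / 4 := by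
      have h1 := (hBR3 D L (N - B)).2
      rw [map_sub, ContinuousLinearMap.sub_apply] at h1
      have h2 : ‖D.π L N D.Ω - D.π L B D.Ω‖ ^ 2 ≤ (ε / 4) ^ 2 := by
        rw [h1, div_le_iff₀ hcardL]; exact hhs
      exact (sq_le_sq₀ (norm_nonneg _) (by positivity)).1 h2
    refine ⟨nf D hBR4 hBN7 ⟨L, N, P, hreg, hker⟩, ⟨⟨L, N, P, hreg, hker⟩,
      ⟨Nat.zero_le _, card_ge 0 L hL⟩, rfl⟩, ?_⟩
    rw [dist_eq]
    calc ‖T.1.1 D.Ω - D.π L N D.Ω‖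
        = ‖(T.1.1 D.Ω - D.π n b D.Ω) - (D.π L N D.Ω - D.π L B D.Ω)‖ := by
          rw [hBπ]; congr 1; abel
      _ ≤ ‖T.1.1 D.Ω - D.π n b D.Ω‖ + ‖D.π L N D.Ω - D.π L B D.Ω‖ := norm_sub_le _ _
      _ < ε := by linarith
  · intro n z hz
    have hcz : (0 : ℝ) < Fintype.card (Idx z.l) := by exact_mod_cast card_pos z.l
    have hη : (0 : ℝ) < min ((1 / 4 : ℝ) ^ n / 2)
        (((1 / 2 : ℝ) ^ n / (Fintype.card (Idx z.l) : ℝ) ^ 2) ^ 2) :=
      lt_min (by positivity) (by positivity)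
    obtain ⟨δ, hδ, hH⟩ := hH1 D z.l z.N z.P z.reg z.ker _ hη
    refine ⟨δ, hδ, ?_⟩
    intro y hy ε hε
    obtain ⟨l', b, hb, hbn, hd⟩ := hBN10 D y.1 y.2
      (min (ε / 2) (δ - dist y (nf D hBR4 hBN7 z))) (lt_min (by positivity) (by linarith))
    have hd1 : ‖D.π l' b D.Ω - D.π z.l z.N D.Ω‖ < δ := by
      have e1 : dist y (nf D hBR4 hBN7 z) = ‖y.1.1 D.Ω - D.π z.l z.N D.Ω‖ := dist_eq D _ _
      calc ‖D.π l' b D.Ω - D.π z.l z.N D.Ω‖
          = ‖(y.1.1 D.Ω - D.π z.l z.N D.Ω) - (y.1.1 D.Ω - D.π l' b D.Ω)‖ := by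
            congr 1; abel
        _ ≤ ‖y.1.1 D.Ω - D.π z.l z.N D.Ω‖ + ‖y.1.1 D.Ω - D.π l' b D.Ω‖ := norm_sub_le _ _
        _ < δ := by
            have := lt_of_lt_of_le hd (min_le_right _ _)
            rw [e1] at this
            linarith
    obtain ⟨L, N', P', hKL, hreg, hker, hN', hP', hq⟩ := hH l' b hb hbn hd1 (ε / 2) (by positivity)
      (max (n + 1) (4 ^ (n + 1 + 1)))
    refine ⟨⟨L, N', P', hreg, hker⟩, ⟨(le_max_left _ _).trans hKL,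
      card_ge (n + 1) L ((le_max_right _ _).trans hKL)⟩, ⟨?_, ?_⟩, ?_⟩
    · intro t h0 h1
      have h2 := hP' t h0 h1
      have h3 : (2 : ℝ) / Fintype.card (Idx z.l) ≤ (1 / 4) ^ n / 2 := by
        have h4 : ((4 : ℝ) ^ (n + 1)) ≤ Fintype.card (Idx z.l) := by exact_mod_cast hz.2
        have h5 : (0 : ℝ) < 4 ^ (n + 1) := by positivity
        calc (2 : ℝ) / Fintype.card (Idx z.l) ≤ 2 / 4 ^ (n + 1) :=
              div_le_div_of_nonneg_left (by norm_num) h5 h4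
          _ = (1 / 4) ^ n / 2 := by
              rw [pow_succ, one_div, inv_pow]; field_simp; ring
      have h6 : ((1 / 2 : ℝ) ^ n) ^ 2 = (1 / 4) ^ n := by
        rw [← pow_mul, mul_comm, pow_mul]; norm_num
      refine (sq_le_sq₀ (norm_nonneg _) (by positivity)).1 ?_
      rw [h6]
      refine h2.trans ?_
      have h7 := min_le_left ((1 / 4 : ℝ) ^ n / 2)
        (((1 / 2 : ℝ) ^ n / (Fintype.card (Idx z.l) : ℝ) ^ 2) ^ 2)
      linarith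
    · obtain ⟨q, hq1, hq2⟩ := hq
      refine ⟨q, hq1, fun j hj => ?_⟩
      refine (sq_le_sq₀ (norm_nonneg _) (by positivity)).1 ?_
      exact (hq2 j hj).trans (min_le_right _ _)
    · rw [dist_eq]
      calc ‖D.π L N' D.Ω - y.1.1 D.Ω‖
          = ‖(D.π L N' D.Ω - D.π l' b D.Ω) - (y.1.1 D.Ω - D.π l' b D.Ω)‖ := by
            congr 1; abel
        _ ≤ ‖D.π L N' D.Ω - D.π l' b D.Ω‖ + ‖y.1.1 D.Ω - D.π l' b D.Ω‖ := norm_sub_le _ _
        _ < ε := by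
            have := lt_of_lt_of_le hd (min_le_left _ _)
            linarith

theorem mainB (H : Type) [NormedAddCommGroup H] [InnerProductSpace ℂ H] [CompleteSpace H] :
    MAINB H := t_MAINB H p_TREE2 t_BAIRE (p_BALL H) (p_BN6 H) (t_BR3 H)
  (t_BR4 H) (p_BR7 H) (p_BN7 H) (p_BN10 H) p_REGD (p_H12 H) (p_LIMH2 H) (p_MASA H) (p_HYP H)
  (p_GEN1 H) (p_GENL H) t_AMPM (t_BR1 H)

end Pool.Agent.H850.GN
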